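import Pool.Agent.Y254.EL.Dual3
set_option autoImplicit false

/-!
# Quantitative removal of the loss
-/

open MeasureTheory Set Metric
open scoped ENNReal NNReal

namespace Pool.Agent.U530.KX
open Pool.Agent.Y254 (mult mult_meas mult_le mult_ne_top mult_zero_or pmult pmult_eq sum_card_parts
  floor_near)
open Pool.Agent.Y254.EL

variable {d : ℕ}

/-- Removal of a small loss: the quantitative form. -/
theorem loss_removal_quant (hd : 1 ≤ d) {R q0 q ε C : ℝ} (hR : 1 ≤ R)
    (hq0 : 1 + 1 / (d : ℝ) ≤ q0) (hq : q0 < q) (hq2 : q ≤ 2) (hε0 : 0 ≤ ε)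
    (hεq : 7 * ((d : ℝ) + 1) * ε < q - q0) (hC : 0 ≤ C)
    (hlo : LoB d R q0 ε C) : ∃ C : ℝ, 0 ≤ C ∧ LF d R q C := by
  have hd0 : (0 : ℝ) < d := by exact_mod_cast hd
  have hp0 : 0 < 1 / (d : ℝ) := by positivity
  set p : ℝ := 1 / (d : ℝ) with hp
  set γ : ℝ := (q - q0) - 7 * ((d : ℝ) + 1) * ε with hγ
  have hγ0 : 0 < γ := by rw [hγ]; linarith
  have hR0 : 0 < R := by linarith
  have hq00 : 0 < q0 := by linarith
  have hqp : 0 < q := by linarith
  set H : ℝ := 2 * (2 * R) ^ d * (2 * R) * 2 ^ (2 - q) with hH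
  set G : ℝ := (2 * 3 ^ d) ^ q0 * (8 * C * ((41088 * R * (4 * 6 ^ d) ^ 7) ^ ε *
    2 ^ (q0 - p))) with hG
  have hH0 : 0 ≤ H := by positivity
  have hG0 : 0 ≤ G := by positivity
  set r : ℝ := 2 ^ (-γ) with hr
  have hr0 : 0 < r := by positivity
  have hr1 : r < 1 := Real.rpow_lt_one_of_one_lt_of_neg (by norm_num) (by linarith)
  refine ⟨(H + G) * (1 - r)⁻¹, mul_nonneg (by positivity) (inv_nonneg.2 (by linarith)), ?_⟩
  intro δ hδ hδ1 ι _ b P v hv hs
  set T : ι → Set (Pt d) := fun i => tb R (R * δ) (b i) (P i) (v i) with hT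
  have hTm : ∀ i, MeasurableSet (T i) := fun i => tb_meas _ _ _ _ _
  rcases isEmpty_or_nonempty ι with hemp | hne
  · have h1 : ∀ x, mult T x ^ q = 0 := by
      intro x
      unfold mult
      rw [Finset.univ_eq_empty, Finset.sum_empty, ENNReal.zero_rpow_of_pos hqp]
    simp only [h1, lintegral_zero]
    exact zero_le
  set N : ℝ := (Fintype.card ι : ℝ) with hN
  have hN1 : 1 ≤ N := by
    rw [hN]
    exact_mod_cast Fintype.card_pos
  have hN0 : 0 < N := by linarith
  set J : ℕ := Fintype.card ι with hJ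
  set A : ℕ → Set (Pt d) := fun k => {x | ENNReal.ofReal (N / (2 * 2 ^ k)) ≤ mult T x ∧
      mult T x ≤ ENNReal.ofReal (N / 2 ^ k)} with hA
  have hAm : ∀ k, MeasurableSet (A k) := fun k =>
    (measurableSet_le measurable_const (mult_meas hTm)).inter
      (measurableSet_le (mult_meas hTm) measurable_const)
  have hpt : ∀ x, mult T x ^ q ≤ ∑ k ∈ Finset.range J, (A k).indicator (fun x => mult T x ^ q) x := by
    intro x
    rcases mult_zero_or T x with h0 | h1
    · rw [h0, ENNReal.zero_rpow_of_pos hqp]; exact zero_le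
    obtain ⟨f, hf⟩ : ∃ f : ℝ≥0, mult T x = f :=
      ⟨(mult T x).toNNReal, (ENNReal.coe_toNNReal (mult_ne_top T x)).symm⟩
    have hf1 : (1 : ℝ) ≤ f := by
      rw [hf] at h1
      exact_mod_cast h1
    have hfN : (f : ℝ) ≤ N := by
      have := mult_le T x
      rw [hf] at this
      rw [hN]
      exact_mod_cast this
    have hf0 : (0 : ℝ) < f := by linarith
    have h2 : 1 ≤ N / f := by rw [le_div_iff₀ hf0]; linarith
    obtain ⟨k, hk1, hk2⟩ := exists_nat_pow_near h2 (by norm_num : (1 : ℝ) < 2)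
    have hkJ : k < J := by
      by_contra hcon
      rw [not_lt] at hcon
      have h3 : (J : ℝ) < 2 ^ J := by exact_mod_cast Nat.lt_two_pow_self
      have h4 : (2 : ℝ) ^ J ≤ 2 ^ k := pow_le_pow_right₀ (by norm_num) hcon
      have h5 : N / f ≤ N := div_le_self hN0.le hf1
      linarith
    have hF : mult T x = ENNReal.ofReal f := by rw [hf]; simp
    have hxA : x ∈ A k := by
      refine ⟨?_, ?_⟩
      · rw [hF]
        apply ENNReal.ofReal_le_ofReal
        rw [div_le_iff₀ (by positivity)]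
        rw [div_lt_iff₀ hf0, pow_succ] at hk2
        linarith
      · rw [hF]
        apply ENNReal.ofReal_le_ofReal
        rw [le_div_iff₀ (by positivity)]
        rw [le_div_iff₀ hf0] at hk1
        linarith
    calc mult T x ^ q = (A k).indicator (fun x => mult T x ^ q) x := by rw [indicator_of_mem hxA]
      _ ≤ _ := Finset.single_le_sum (f := fun k => (A k).indicator (fun x => mult T x ^ q) x)
          (fun _ _ => zero_le) (Finset.mem_range.2 hkJ)
  have hlev : ∀ k : ℕ, ∫⁻ x in A k, mult T x ^ q ≤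
      ENNReal.ofReal ((H + G) * (δ ^ d * N ^ (q - p)) * r ^ k) := by
    intro k
    have hK : (1 : ℝ) ≤ 2 ^ k := one_le_pow₀ (by norm_num)
    set K : ℝ := 2 ^ k with hKdef
    have hK0 : 0 < K := by linarith
    refine (level hd hR hq0 hq hq2 hC hε0 hlo hδ hK b P v hs rfl rfl).trans ?_
    rw [← ENNReal.ofReal_add (by positivity) (by positivity)]
    apply ENNReal.ofReal_le_ofReal
    have hrk : r ^ k = K ^ (-γ) := by
      rw [hr, hKdef, ← Real.rpow_natCast, ← Real.rpow_natCast, ← Real.rpow_mul (by norm_num),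
        ← Real.rpow_mul (by norm_num), mul_comm]
    have h1 : (N / (2 * K)) ^ (q - 2) * (2 * N ^ 2 * ((2 * (R * δ)) ^ d *
        (4 * (R * δ) / (2 * (δ * (N ^ p * K)))))) = H * (δ ^ d * N ^ (q - p)) * K ^ (1 - q) := by
      have e1 : (N / (2 * K)) ^ (q - 2) = N ^ (q - 2) * (2 ^ (2 - q) * K ^ (2 - q)) := by
        rw [Real.div_rpow hN0.le (by positivity), Real.mul_rpow (by norm_num) hK0.le,
          div_eq_mul_inv, mul_inv, ← Real.rpow_neg (by norm_num), ← Real.rpow_neg hK0.le]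
        congr 3 <;> ring
      have e2 : N ^ (q - p) = N ^ (q - 2) * N ^ 2 * (N ^ p)⁻¹ := by
        rw [← Real.rpow_natCast, ← Real.rpow_neg hN0.le, ← Real.rpow_add hN0, ← Real.rpow_add hN0]
        congr 1
        push_cast
        ring
      have e3 : K ^ (1 - q) = K ^ (2 - q) * K⁻¹ := by
        rw [← Real.rpow_neg_one, ← Real.rpow_add hK0]
        congr 1
        ring
      rw [e1, e2, e3, hH]
      have hNp : 0 < N ^ p := by positivity
      have e4 : (2 * (R * δ)) ^ d = (2 * R) ^ d * δ ^ d := by rw [← mul_pow]; congr 1; ring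
      rw [e4]
      field_simp
      ring
    have h2 : (N / K) ^ (q - q0) * (2 * 3 ^ d) ^ q0 *
      (8 * C * ((41088 * R * (4 * 6 ^ d * K ^ (d + 1)) ^ 7) ^ ε * (δ ^ d *
        (2 * N) ^ (q0 - p)))) = G * (δ ^ d * N ^ (q - p)) * K ^ (-γ) := by
      have e1 : (N / K) ^ (q - q0) = N ^ (q - q0) * K ^ (-(q - q0)) := by
        rw [Real.div_rpow hN0.le hK0.le, div_eq_mul_inv, ← Real.rpow_neg hK0.le]
      have e2 : (41088 * R * (4 * 6 ^ d * K ^ (d + 1)) ^ 7) ^ ε =
          (41088 * R * (4 * 6 ^ d) ^ 7) ^ ε * K ^ (7 * ((d : ℝ) + 1) * ε) := by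
        have e3 : 41088 * R * (4 * 6 ^ d * K ^ (d + 1)) ^ 7 =
            (41088 * R * (4 * 6 ^ d) ^ 7) * K ^ ((d + 1) * 7) := by
          rw [mul_pow, ← pow_mul]
          ring
        rw [e3, Real.mul_rpow (by positivity) (by positivity)]
        congr 1
        rw [← Real.rpow_natCast, ← Real.rpow_mul hK0.le]
        congr 1
        push_cast
        ring
      have e4 : K ^ (-γ) = K ^ (-(q - q0)) * K ^ (7 * ((d : ℝ) + 1) * ε) := by
        rw [← Real.rpow_add hK0]
        congr 1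
        rw [hγ]; ring
      have e5 : N ^ (q - p) = N ^ (q - q0) * N ^ (q0 - p) := by
        rw [← Real.rpow_add hN0]
        congr 1
        ring
      rw [e1, e2, e4, e5, hG, Real.mul_rpow (by norm_num : (0 : ℝ) ≤ 2) hN0.le]
      ring
    rw [h1, h2, hrk]
    have h3 : K ^ (1 - q) ≤ K ^ (-γ) := by
      apply Real.rpow_le_rpow_of_exponent_le hK
      have h5 : 0 ≤ 7 * ((d : ℝ) + 1) * ε := by positivity
      rw [hγ]
      linarith
    have h4 : 0 ≤ δ ^ d * N ^ (q - p) := by positivity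
    calc H * (δ ^ d * N ^ (q - p)) * K ^ (1 - q) + G * (δ ^ d * N ^ (q - p)) * K ^ (-γ)
        ≤ H * (δ ^ d * N ^ (q - p)) * K ^ (-γ) + G * (δ ^ d * N ^ (q - p)) * K ^ (-γ) := by gcongr
      _ = _ := by ring
  calc ∫⁻ x, mult T x ^ q
      ≤ ∫⁻ x, ∑ k ∈ Finset.range J, (A k).indicator (fun x => mult T x ^ q) x :=
        lintegral_mono hpt
    _ = ∑ k ∈ Finset.range J, ∫⁻ x in A k, mult T x ^ q := by
        rw [lintegral_finsetSum _ fun k _ => ((mult_meas hTm).pow_const _).indicator (hAm k)]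
        refine Finset.sum_congr rfl fun k _ => ?_
        rw [lintegral_indicator (hAm k)]
    _ ≤ ∑ k ∈ Finset.range J, ENNReal.ofReal ((H + G) * (δ ^ d * N ^ (q - p)) * r ^ k) :=
        Finset.sum_le_sum fun k _ => hlev k
    _ = ENNReal.ofReal ((H + G) * (δ ^ d * N ^ (q - p)) * ∑ k ∈ Finset.range J, r ^ k) := by
        rw [← ENNReal.ofReal_sum_of_nonneg (fun k _ => by positivity), ← Finset.mul_sum]
    _ ≤ _ := by
        apply ENNReal.ofReal_le_ofReal
        have h1 : ∑ k ∈ Finset.range J, r ^ k ≤ (1 - r)⁻¹ := by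
          rw [← tsum_geometric_of_lt_one hr0.le hr1]
          exact (summable_geometric_of_lt_one hr0.le hr1).sum_le_tsum _ fun _ _ => by positivity
        calc (H + G) * (δ ^ d * N ^ (q - p)) * ∑ k ∈ Finset.range J, r ^ k
            ≤ (H + G) * (δ ^ d * N ^ (q - p)) * (1 - r)⁻¹ := by gcongr
          _ = _ := by ring


/-- An inequality with a small loss at `q0` implies the inequality without a loss at `q`. -/
theorem euF_of_euL_quant (hd : 2 ≤ d) {q0 q ε C : ℝ} (hq0 : 1 + 1 / (d : ℝ) ≤ q0) (hq : q0 < q)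
    (hε0 : 0 ≤ ε) (hεq : 7 * ((d : ℝ) + 1) * ε < q - q0) (hC : 0 ≤ C) (h : EuL d q0 ε C) :
    ∃ C : ℝ, 0 < C ∧ EuF d q C := by
  have hdr : (2 : ℝ) ≤ d := by exact_mod_cast hd
  have hd0 : (0 : ℝ) < d := by linarith
  have hp0 : 0 < 1 / (d : ℝ) := by positivity
  rcases lt_or_ge (1 + 2 / ((d + 1 : ℕ) : ℝ)) q with h1 | h1
  · obtain ⟨A, hA, hw⟩ := Pool.Agent.Y254.wolff (n := d + 1) (by omega) h1
    refine ⟨A, hA, ?_⟩
    intro δ hδ hδ1 ι _ a e he hsep
    have h2 := hw δ hδ hδ1 a e he hsep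
    have e1 : (((d + 1 : ℕ) : ℝ) - 1) = d := by push_cast; ring
    rw [e1, Nat.add_sub_cancel] at h2
    exact h2
  · have hq2 : q ≤ 2 := by
      refine h1.trans ?_
      have : 2 / ((d + 1 : ℕ) : ℝ) ≤ 1 := by
        rw [div_le_one (by positivity)]
        push_cast
        linarith
      linarith
    have hLF : ∀ R : ℝ, 1 ≤ R → ∃ C : ℝ, 0 ≤ C ∧ LF d R q C := by
      intro R hR
      obtain ⟨C', hC', hL⟩ := LoB_of_EuL (by omega) hq0 hC h hR
      exact loss_removal_quant (by omega) hR hq0 hq hq2 hε0 hεq hC' hL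
    have hq' : 1 + 1 / (d : ℝ) ≤ q := by linarith
    obtain ⟨C, hC, hT⟩ := Pool.Agent.Y244.HM.tubeP (by omega) hq'
      (allwP_of_LF (by omega) hq' hLF)
    refine ⟨C, hC, ?_⟩
    intro δ hδ hδ1 ι _ a e he hsep
    have h2 := hT δ hδ hδ1.le ι a e he hsep
    have e1 : C * δ ^ (d : ℝ) * (Fintype.card ι : ℝ) ^ (q - 1 / (d : ℝ)) =
        C * (δ ^ d * (Fintype.card ι : ℝ) ^ (q - 1 / (d : ℝ))) := by
      rw [Real.rpow_natCast]; ring
    rw [e1] at h2
    exact h2

end Pool.Agent.U530.KX
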