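import Pool.Agent.Y254.EL.Dual3
set_option autoImplicit false

/-!
# Passing between the norm forms and the library forms of the Kakeya estimates
-/

open MeasureTheory Set Metric
open scoped ENNReal NNReal

namespace Pool.Agent.U530.KX
open Pool.Agent.Y254 (mult mult_meas)
open Pool.Agent.W46.HM (kmax)
open Pool.Agent.Y244.HM (WeakP StrongP strongP)
open Pool.Agent.Y244.WR (TubeQ weakQ)
open Pool.Agent.Y254.EL (KM EuL EuF sg crit_of_sub euL_of_KM euF_of_euL euL_of_euF)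

variable {d : ℕ}

/-- `ℝⁿ`. -/
abbrev E (n : ℕ) := EuclideanSpace ℝ (Fin n)

/-- Powers of inequalities. -/
theorem root_le {X Y : ℝ≥0∞} {K p : ℝ} (hp : 0 < p) (hK : 0 ≤ K)
    (h : X ≤ ENNReal.ofReal K * Y) :
    X ^ (1 / p) ≤ ENNReal.ofReal (K ^ (1 / p)) * Y ^ (1 / p) := by
  calc X ^ (1 / p) ≤ (ENNReal.ofReal K * Y) ^ (1 / p) := ENNReal.rpow_le_rpow h (by positivity)
    _ = _ := by
      rw [ENNReal.mul_rpow_of_nonneg _ _ (by positivity),
        ENNReal.ofReal_rpow_of_nonneg hK (by positivity)]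

theorem pow_le {X Y : ℝ≥0∞} {K p : ℝ} (hp : 0 < p) (hK : 0 ≤ K)
    (h : X ^ (1 / p) ≤ ENNReal.ofReal K * Y ^ (1 / p)) :
    X ≤ ENNReal.ofReal (K ^ p) * Y := by
  have h1 := ENNReal.rpow_le_rpow h hp.le
  rw [← ENNReal.rpow_mul, ENNReal.mul_rpow_of_nonneg _ _ hp.le, ← ENNReal.rpow_mul,
    one_div, inv_mul_cancel₀ hp.ne', ENNReal.rpow_one, ENNReal.rpow_one,
    ENNReal.ofReal_rpow_of_nonneg hK hp.le] at h1
  exact h1

/-- From real functions in `L^p` to functions with values in `[0, ∞)`. -/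
theorem of_memLp {p K δ : ℝ} (hp : 0 < p) (hK : 0 < K)
    (h : ∀ f : E (d + 1) → ℝ, MemLp f (ENNReal.ofReal p) volume →
      ∫⁻ e, kmax δ (fun y => ‖f y‖ₑ) (e : E (d + 1)) ^ p ∂(sg d) ≤
        ENNReal.ofReal K * ∫⁻ y, ‖f y‖ₑ ^ p)
    (f : E (d + 1) → ℝ≥0∞) (hf : AEMeasurable f volume) (hft : ∀ x, f x ≠ ∞) :
    ∫⁻ e, kmax δ f (e : E (d + 1)) ^ p ∂(sg d) ≤ ENNReal.ofReal K * ∫⁻ y, f y ^ p := by
  have e1 : ∀ y, ‖(f y).toReal‖ₑ = f y := by
    intro y
    rw [Real.enorm_of_nonneg ENNReal.toReal_nonneg, ENNReal.ofReal_toReal (hft y)]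
  by_cases hI : ∫⁻ y, f y ^ p = ∞
  · rw [hI, ENNReal.mul_top (by rw [ne_eq, ENNReal.ofReal_eq_zero, not_le]; exact hK)]
    exact le_top
  · have h1 := h (fun y => (f y).toReal) ?_
    · simp only [e1] at h1
      exact h1
    · refine ⟨hf.ennreal_toReal.aestronglyMeasurable, ?_⟩
      rw [eLpNorm_lt_top_iff_lintegral_rpow_enorm_lt_top
        (by rw [ne_eq, ENNReal.ofReal_eq_zero, not_le]; exact hp) ENNReal.ofReal_ne_top,
        ENNReal.toReal_ofReal hp.le]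
      simp only [e1]
      exact lt_top_iff_ne_top.2 hI

theorem kmax_congr {δ : ℝ} {f g : E (d + 1) → ℝ≥0∞} (h : f =ᵐ[volume] g) (e : E (d + 1)) :
    kmax δ f e = kmax δ g e := by
  unfold kmax
  refine iSup_congr fun a => ?_
  congr 1
  exact lintegral_congr_ae (ae_restrict_of_ae h)

/-- A function with values in `[0, ∞]` and finite `L^p` norm is the modulus of a real function in
`L^p`. -/
theorem real_rep {p : ℝ} (hp : 0 < p) {f : E (d + 1) → ℝ≥0∞} (hf : AEMeasurable f volume)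
    (hI : ∫⁻ y, f y ^ p ≠ ∞) :
    MemLp (fun y => (f y).toReal) (ENNReal.ofReal p) volume ∧
      (fun y => ‖(f y).toReal‖ₑ) =ᵐ[volume] f := by
  have h1 : (fun y => ‖(f y).toReal‖ₑ) =ᵐ[volume] f := by
    have h2 : ∀ᵐ y, f y ^ p < ∞ := ae_lt_top' (hf.pow_const p) hI
    filter_upwards [h2] with y hy
    have h3 : f y ≠ ∞ := by
      intro h
      rw [h, ENNReal.top_rpow_of_pos hp] at hy
      exact lt_irrefl _ hy
    rw [Real.enorm_of_nonneg ENNReal.toReal_nonneg, ENNReal.ofReal_toReal h3]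
  refine ⟨⟨hf.ennreal_toReal.aestronglyMeasurable, ?_⟩, h1⟩
  rw [eLpNorm_lt_top_iff_lintegral_rpow_enorm_lt_top
    (by rw [ne_eq, ENNReal.ofReal_eq_zero, not_le]; exact hp) ENNReal.ofReal_ne_top,
    ENNReal.toReal_ofReal hp.le]
  have h2 : ∫⁻ y, ‖(f y).toReal‖ₑ ^ p = ∫⁻ y, f y ^ p := by
    refine lintegral_congr_ae ?_
    filter_upwards [h1] with y hy
    rw [hy]
  rw [h2]
  exact lt_top_iff_ne_top.2 hI

end Pool.Agent.U530.KX
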